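import Mathlib
import Pool.Agent.helper22.WC.Spec
import Pool.Agent.helper65.DI.D1

/-!
# Project wc (MP_baa4d7_al), module D1T: the alternating sum of all blocks as a weighted sum over the radical chains
-/

set_option autoImplicit false

namespace Pool.Agent.WC

open Pool.Agent.helper58.DC Pool.Agent.DI Pool.Agent.DR

section D1T

variable {G E A : Type} [Group G] [Group E] [Group A] [Finite G]

private theorem D1T_kR_le (hNM : NM_stmt) (hIF : IF_stmt) (X : Extension G E A) (p : ℕ)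
    (d : ℤ) (C : Finset (Subgroup G)) (g : G) :
    kR X p (fun _ => True) d C ≤ kR X p (fun _ => True) d (chainMap (MulAut.conj g) C) := by
  have hfin : Finite {ψ : G → ℂ // ψ ∈ IrrOn (nrm (chainMap (MulAut.conj g) C)) ∧
      Defect p (nrm (chainMap (MulAut.conj g) C)) ψ d ∧ (fun _ : G → ℂ => True) ψ ∧
      (X.stab (chainMap (MulAut.conj g) C) ψ).map X.proj = ⊤} := by
    have h1 : (IrrOn (nrm (chainMap (MulAut.conj g) C))).Finite :=
      (hIF G (nrm (chainMap (MulAut.conj g) C))).1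
    exact (h1.subset (fun ψ (hψ : ψ ∈ {ψ : G → ℂ | ψ ∈ IrrOn (nrm (chainMap (MulAut.conj g) C)) ∧
      Defect p (nrm (chainMap (MulAut.conj g) C)) ψ d ∧ (fun _ : G → ℂ => True) ψ ∧
      (X.stab (chainMap (MulAut.conj g) C) ψ).map X.proj = ⊤}) => hψ.1)).to_subtype
  have hn : nrm (chainMap (MulAut.conj g) C) = (nrm C).map (MulAut.conj g).toMonoidHom :=
    (hNM G (MulAut.conj g) C).2.2.2.1
  unfold kR
  refine Nat.card_le_card_of_injective (fun ψ => ⟨funMap (MulAut.conj g) ψ.1, ?_, ?_, trivial, ?_⟩) ?_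
  · rw [hn]
    exact ((hIF G (nrm C)).2 ψ.1 ψ.2.1).2.2 _
  · obtain ⟨n, h1, h2⟩ := ψ.2.2.1
    refine ⟨n, ?_, ?_⟩
    · rw [← h1]
      simp [funMap]
    · rw [h2, hn]
      congr 2
      exact congrArg (padicValNat p) (Nat.card_congr ((nrm C).equivMapOfInjective _
        (MulAut.conj g).injective).toEquiv)
  · rw [D1_map_eq hNM]
    exact ψ.2.2.2.2
  · intro ψ φ h
    have h1 : funMap (MulAut.conj g) ψ.1 = funMap (MulAut.conj g) φ.1 := congrArg Subtype.val h
    apply Subtype.ext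
    rw [← D1_backF ψ.1 g, h1, D1_backF]

private theorem D1T_kR (hNM : NM_stmt) (hIF : IF_stmt) (X : Extension G E A) (p : ℕ)
    (d : ℤ) (C : Finset (Subgroup G)) (g : G) :
    kR X p (fun _ => True) d (chainMap (MulAut.conj g) C) = kR X p (fun _ => True) d C := by
  refine le_antisymm ?_ (D1T_kR_le hNM hIF X p d C g)
  have h := D1T_kR_le hNM hIF X p d (chainMap (MulAut.conj g) C) g⁻¹
  rwa [D1_back hNM] at h

end D1T

theorem D1T (hNM : NM_stmt) (hSN : SN_stmt) (hIF : IF_stmt) : D1T_stmt := by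
  classical
  intro G E A _ _ _ _ X p d
  let F : {C : Finset (Subgroup G) // IsRadical p C} → ℤ := fun C =>
    (-1) ^ (C.1.card + 1) * ((Nat.card (nrm C.1) : ℤ) * kR X p (fun _ => True) d C.1)
  have e1 : radS X p (fun _ => True) d = ∑ᶠ C, F C := by
    unfold radS
    exact (finsum_set_coe_eq_finsum_mem {C : Finset (Subgroup G) | IsRadical p C}
      (f := fun C => (-1) ^ (C.card + 1) * ((Nat.card (nrm C) : ℤ) *
        kR X p (fun _ => True) d C))).symm
  rw [e1]
  have : Fintype {C : Finset (Subgroup G) // IsRadical p C} := Fintype.ofFinite _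
  have : Fintype (Quot (chainRel (G := G) p)) := Fintype.ofFinite _
  rw [finsum_eq_sum_of_fintype, ← Fintype.sum_fiberwise (Quot.mk (chainRel (G := G) p)) F]
  unfold altT
  rw [finsum_eq_sum_of_fintype, Finset.mul_sum]
  refine Finset.sum_congr rfl fun c _ => ?_
  -- the function is constant on the fibre
  have e2 : ∀ C : {C : {C : Finset (Subgroup G) // IsRadical p C} //
      Quot.mk (chainRel (G := G) p) C = c}, F C.1 = F c.out := by
    rintro ⟨C, hC⟩
    obtain ⟨g, hg⟩ := Pool.Agent.helper48.DC.CL1_rel_of_mk hNM p c.out C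
      ((Quot.out_eq c).trans hC.symm)
    show (-1) ^ (C.1.card + 1) * ((Nat.card (nrm C.1) : ℤ) * kR X p (fun _ => True) d C.1) =
      (-1) ^ (c.out.1.card + 1) * ((Nat.card (nrm c.out.1) : ℤ) *
        kR X p (fun _ => True) d c.out.1)
    rw [← hg, D1T_kR hNM hIF, (hNM G (MulAut.conj g) c.out.1).2.2.1,
      (hNM G (MulAut.conj g) c.out.1).2.2.2.1]
    have h5 : Nat.card (Subgroup.map (MulAut.conj g).toMonoidHom (nrm c.out.1)) =
        Nat.card (nrm c.out.1) :=
      (Nat.card_congr ((nrm c.out.1).equivMapOfInjective _ (MulAut.conj g).injective).toEquiv).symm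
    rw [h5]
  rw [Finset.sum_congr rfl fun C _ => e2 C, Finset.sum_const, Finset.card_univ, nsmul_eq_mul]
  -- the size of the fibre
  have e3 : Fintype.card {C : {C : Finset (Subgroup G) // IsRadical p C} //
      Quot.mk (chainRel (G := G) p) C = c} =
      ({D : Finset (Subgroup G) | ∃ g : G, chainMap (MulAut.conj g) c.out.1 = D}).ncard := by
    rw [← Nat.card_eq_fintype_card]
    refine Nat.card_congr ⟨fun C => ⟨C.1.1, ?_⟩, fun D => ⟨⟨D.1, ?_⟩, ?_⟩, fun _ => rfl,
      fun _ => rfl⟩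
    · exact Pool.Agent.helper48.DC.CL1_rel_of_mk hNM p c.out C.1
        ((Quot.out_eq c).trans C.2.symm)
    · obtain ⟨g, hg⟩ := D.2
      show IsRadical p D.1
      rw [← hg]
      exact (hNM G (MulAut.conj g) c.out.1).2.2.2.2.2.2 p c.out.2
    · obtain ⟨g, hg⟩ := D.2
      exact Eq.trans (Quot.sound (r := chainRel (G := G) p) (a := c.out) ⟨g, hg⟩).symm
        (Quot.out_eq c)
  rw [e3]
  have e4 := D1_card hNM hSN c.out.1 c.out.2.chain
  have e5 : c.out.1.card ≠ 0 := by
    obtain ⟨P₀, hP, _⟩ := c.out.2.radical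
    exact (Finset.card_pos.2 ⟨P₀, hP⟩).ne'
  obtain ⟨m, hm⟩ := Nat.exists_eq_succ_of_ne_zero e5
  show _ = _ * ((-1) ^ (c.out.1.card + 1) * ((Nat.card (nrm c.out.1) : ℤ) *
    kR X p (fun _ => True) d c.out.1))
  rw [← e4, hm]
  push_cast
  simp only [Nat.succ_eq_add_one]
  ring

end Pool.Agent.WC
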